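import Pool.Agent.Y392.SD.Fin

set_option autoImplicit false

/-!
# Prescribed circuits in double covers of near-Hamiltonian graphs of arbitrary degrees

The starting result `FullAnswer` treats cubic graphs. Here the degrees are arbitrary (only vertices
of degree one are excluded; they would be ends of bridges), and the underlying criterion is proved
for graphs of arbitrary degrees and for families of circuits: if `G/E(D)` has a nowhere-zero 4-flow
then all families of pairwise edge-disjoint circuits with vertices on `D` are parts of circuit
double covers.
-/

open Finset

namespace Pool.Agent.Results.MP_ff63d6_co.AllDegrees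

open Pool.Agent.Helper347.Sab
open Pool.Agent.Y392.SD (NearHamiltonian OnCircuit)

/-- `G/E(D)` has a nowhere-zero 4-flow: two even edge sets of `G` cover all edges outside `D`. -/
def FourFlowOff {V E : Type} [Fintype V] [DecidableEq V] [Fintype E] [DecidableEq E]
    (G : MGraph V E) (D : Finset E) : Prop :=
  ∃ A B : Finset E, (∀ v, Even (dg G A v)) ∧ (∀ v, Even (dg G B v)) ∧
    ∀ e, e ∉ D → e ∈ A ∨ e ∈ B

/-- Let `G` be a finite loopless multigraph (parallel edges are allowed, the degrees are arbitrary).
(1) If `G` has `n` vertices, none of them of degree one, and circumference at least `n - 1`, then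
every circuit of `G` belongs to a circuit double cover of `G`.
(2) If `D` is a circuit of `G` such that `G/E(D)` has a nowhere-zero 4-flow then every family of
pairwise edge-disjoint circuits of `G` all of whose vertices lie on `D` is contained in a circuit
double cover of `G`; in particular `D` and every circuit with vertices on `D` belong to one. -/
theorem result {V E : Type} [Fintype V] [DecidableEq V] [Fintype E] [DecidableEq E]
    (G : MGraph V E) :
    ((∀ v, dg G univ v ≠ 1) → NearHamiltonian G → ∀ C : Finset E, IsCircuit G C →
      ∃ F : Multiset (Finset E), IsCDC G F ∧ C ∈ F) ∧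
    ∀ D : Finset E, IsCircuit G D → FourFlowOff G D → ∀ T : Multiset (Finset E),
      OnCircuit G D T → ∃ F : Multiset (Finset E), IsCDC G F ∧ T ≤ F := by
  refine ⟨fun h1 hn C hC => Pool.Agent.Y392.SD.near G h1 hn C hC, ?_⟩
  rintro D hD ⟨A, B, hA, hB, hAB⟩ T hT
  exact Pool.Agent.Y392.SD.family_flow G D hD A B hA hB hAB T hT

end Pool.Agent.Results.MP_ff63d6_co.AllDegrees
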